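import Mathlib
import Pool.Agent.H602R3.ConeFlow
import Pool.Agent.H602R3.ConeInt

namespace Pool.Agent.Results.MP_a6ddc5_al.ConesSubexponential

open Filter Topology Pool.Agent.H602R3.Cone Pool.Agent.H602R3.ConeTree

universe u

/-- The ball of radius `n` in the subgroup generated by `S`: all products of at most `n` factors
from `S ∪ S⁻¹`. -/
def ball {G : Type u} [Group G] (S : Set G) (n : ℕ) : Set G :=
  {g | ∃ l : List G, l.length ≤ n ∧ (∀ x ∈ l, x ∈ S ∨ x⁻¹ ∈ S) ∧ l.prod = g}

/-- With the fixed-point property for cones, no flow survives. -/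
lemma exists_lt {G : Type u} [Group G] (hFP : FixedPointPropertyForCones G) (S : Finset G)
    {β : ℝ} (hβ : 1 < β) : ∃ n, a S β n [] < 1 := by
  classical
  by_contra hs
  push Not at hs
  have hs' : ∀ n, ¬ a S β n [] < 1 := fun n => not_lt.2 (hs n)
  have hβ0 : 0 < β := by linarith
  have hf : ∀ x, 0 ≤ fG S β x := fG_nonneg S hβ0
  obtain ⟨μ, hpos, hinv, hμ⟩ := exists_integral hFP (fG S β) hf ⟨1, fG_le_one S hβ0⟩
    ⟨1, by rw [fG_one S hs']; exact one_ne_zero⟩
  -- the pieces of `f`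
  have hmem : ∀ s, hG S β s ∈ dom (fG S β) hf := by
    intro s
    refine ⟨[1], fun x => ?_⟩
    rw [abs_of_nonneg (hG_nonneg S hβ0 s x)]
    simpa using hG_le S hβ0 s x
  let F : dom (fG S β) hf := ⟨fG S β, self_mem⟩
  let H : G → dom (fG S β) hf := fun s => ⟨hG S β s, hmem s⟩
  have e1 : 0 ≤ μ ((∑ s ∈ S, tl (fG S β) hf s⁻¹ (H s)) - β • F) := by
    apply hpos
    intro x
    rw [Submodule.coe_sub, Pi.sub_apply, Submodule.coe_smul, Pi.smul_apply, smul_eq_mul,
      AddSubmonoidClass.coe_finsetSum, Finset.sum_apply]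
    have h1 := fG_super S hβ0 x
    have h2 : ∑ s ∈ S, (tl (fG S β) hf s⁻¹ (H s)).1 x = ∑ s ∈ S, hG S β s (s * x) := by
      refine Finset.sum_congr rfl fun s _ => ?_
      show hG S β s (s⁻¹⁻¹ * x) = _
      rw [inv_inv]
    rw [h2]
    show 0 ≤ _ - β * fG S β x
    linarith
  have e2 : 0 ≤ μ (F - ∑ s ∈ S, H s) := by
    apply hpos
    intro x
    rw [Submodule.coe_sub, Pi.sub_apply, AddSubmonoidClass.coe_finsetSum, Finset.sum_apply]
    have := sum_hG_le S hβ0 x
    show 0 ≤ fG S β x - ∑ s ∈ S, hG S β s x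
    linarith
  rw [map_sub, map_sum, map_smul, smul_eq_mul] at e1
  rw [map_sub, map_sum] at e2
  simp only [hinv] at e1
  have h3 : 0 < μ F := hμ
  nlinarith

/-- **Negative answer to Q1.** If a group `G` has the fixed-point property for cones, then every
finitely generated subgroup of `G` has subexponential growth: for every finite subset `S` of `G`,
`|B(n)|^(1/n) → 1`, where `B(n)` is the set of products of at most `n` elements of `S ∪ S⁻¹`. In
particular no finitely generated group of exponential growth has the fixed-point property for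
cones. -/
theorem result {G : Type u} [Group G] (hFP : FixedPointPropertyForCones G) (S : Finset G) :
    Tendsto (fun n : ℕ => ((ball (S : Set G) n).ncard : ℝ) ^ ((1 : ℝ) / n)) atTop (𝓝 1) := by
  classical
  let T : Finset G := S ∪ S.image (fun x => x⁻¹)
  have hball : ∀ n, ball (S : Set G) n = ballS T n := by
    intro n
    ext g
    have hT : ∀ x : G, (x ∈ (S : Set G) ∨ x⁻¹ ∈ (S : Set G)) ↔ x ∈ T := by
      intro x
      simp only [T, Finset.mem_union, Finset.mem_image, Finset.mem_coe]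
      constructor
      · rintro (h | h)
        · exact Or.inl h
        · exact Or.inr ⟨x⁻¹, h, inv_inv x⟩
      · rintro (h | ⟨y, hy, rfl⟩)
        · exact Or.inl h
        · right
          rwa [inv_inv]
    simp only [ball, ballS, hT]
  simp only [hball]
  have hpos : ∀ n, 1 ≤ (ballS T n).ncard := by
    intro n
    have h1 : (1 : G) ∈ ballS T n := ⟨[], by simp, by simp, rfl⟩
    exact (Set.ncard_pos (ballS_card T (β := 1) one_pos n).1).2 ⟨1, h1⟩
  rw [Metric.tendsto_atTop]
  intro ε hε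
  let β : ℝ := 1 + ε / 2
  have hβ : 1 < β := by simp only [β]; linarith
  obtain ⟨n₀, hn₀⟩ := exists_lt hFP T hβ
  obtain ⟨C, hC0, hC⟩ := growth_of_lt T hβ.le hn₀
  -- C (N+1) β^N < (1+ε)^N eventually
  have hev : ∀ᶠ N : ℕ in atTop, C * ((N : ℝ) + 1) * β ^ N < (1 + ε) ^ N := by
    have hr : |β / (1 + ε)| < 1 := by
      rw [abs_of_pos (by positivity), div_lt_one (by positivity)]
      simp only [β]; linarith
    have t1 : Tendsto (fun N : ℕ => (N : ℝ) * (β / (1 + ε)) ^ N) atTop (𝓝 0) :=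
      tendsto_self_mul_const_pow_of_abs_lt_one hr
    have t2 : Tendsto (fun N : ℕ => (β / (1 + ε)) ^ N) atTop (𝓝 0) :=
      tendsto_pow_atTop_nhds_zero_of_abs_lt_one hr
    have t3 : Tendsto (fun N : ℕ => C * ((N : ℝ) * (β / (1 + ε)) ^ N + (β / (1 + ε)) ^ N))
        atTop (𝓝 (C * (0 + 0))) := (t1.add t2).const_mul C
    rw [add_zero, mul_zero] at t3
    have h4 := t3.eventually (gt_mem_nhds (zero_lt_one))
    filter_upwards [h4] with N hN
    have hp : (0 : ℝ) < (1 + ε) ^ N := by positivity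
    have h5 : C * ((N : ℝ) + 1) * β ^ N =
        (C * ((N : ℝ) * (β / (1 + ε)) ^ N + (β / (1 + ε)) ^ N)) * (1 + ε) ^ N := by
      rw [div_pow]
      field_simp
    rw [h5]
    calc _ < 1 * (1 + ε) ^ N := mul_lt_mul_of_pos_right hN hp
      _ = _ := one_mul _
  obtain ⟨N₁, hN₁⟩ := eventually_atTop.1 hev
  refine ⟨max N₁ 1, fun n hn => ?_⟩
  have hn1 : 1 ≤ n := le_trans (le_max_right _ _) hn
  have hn2 : N₁ ≤ n := le_trans (le_max_left _ _) hn
  have hnpos : (0 : ℝ) < n := by exact_mod_cast hn1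
  have hge : (1 : ℝ) ≤ (ballS T n).ncard := by exact_mod_cast hpos n
  have hlow : (1 : ℝ) ≤ ((ballS T n).ncard : ℝ) ^ ((1 : ℝ) / n) :=
    Real.one_le_rpow hge (by positivity)
  have hup : ((ballS T n).ncard : ℝ) ^ ((1 : ℝ) / n) < 1 + ε := by
    have h6 : ((ballS T n).ncard : ℝ) < (1 + ε) ^ n := lt_of_le_of_lt (hC n) (hN₁ n hn2)
    calc ((ballS T n).ncard : ℝ) ^ ((1 : ℝ) / n) < ((1 + ε) ^ n) ^ ((1 : ℝ) / n) :=
          Real.rpow_lt_rpow (by positivity) h6 (by positivity)
      _ = 1 + ε := by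
        rw [← Real.rpow_natCast, ← Real.rpow_mul (by positivity), mul_one_div,
          div_self hnpos.ne', Real.rpow_one]
  rw [Real.dist_eq, abs_lt]
  constructor <;> linarith

end Pool.Agent.Results.MP_a6ddc5_al.ConesSubexponential
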